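import Pool.Agent.H238.PH.Spec

/-!
Project PH (helper238), problem MP_815c6c_an: part `S_O2` (sharpness of the degree gap), by
helper947.
-/

set_option autoImplicit false

namespace Pool.Agent.H947.PH.O2

open Pool.Agent.H238.PH MeasureTheory Set Filter Topology
open scoped ContDiff RealInnerProductSpace

/-- `x₁² + x₂²` -/
noncomputable def ss (x : RE 2) : ℝ := x 0 ^ 2 + x 1 ^ 2

theorem ss_eq (x : RE 2) : ss x = ‖x‖ ^ 2 := by
  rw [EuclideanSpace.norm_sq_eq]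
  simp [ss, Fin.sum_univ_two]

theorem ss_pos {x : RE 2} (hx : x ≠ 0) : 0 < ss x := by
  rw [ss_eq]
  have := norm_pos_iff.mpr hx
  positivity

/-- the first coordinate -/
noncomputable def p0 : RE 2 →L[ℝ] ℝ := EuclideanSpace.proj 0

/-- the second coordinate -/
noncomputable def p1 : RE 2 →L[ℝ] ℝ := EuclideanSpace.proj 1

theorem p0_apply (x : RE 2) : p0 x = x 0 := rfl

theorem p1_apply (x : RE 2) : p1 x = x 1 := rfl

theorem hasFDerivAt_0 (x : RE 2) : HasFDerivAt (fun y : RE 2 => y 0) p0 x := p0.hasFDerivAt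

theorem hasFDerivAt_1 (x : RE 2) : HasFDerivAt (fun y : RE 2 => y 1) p1 x := p1.hasFDerivAt

/-- the derivative of `ss` -/
noncomputable def Dss (x : RE 2) : RE 2 →L[ℝ] ℝ := (2 * x 0) • p0 + (2 * x 1) • p1

theorem hasFDerivAt_ss (x : RE 2) : HasFDerivAt ss (Dss x) x := by
  have h := ((hasFDerivAt_0 x).mul (hasFDerivAt_0 x)).add ((hasFDerivAt_1 x).mul (hasFDerivAt_1 x))
  have e : (fun y : RE 2 => y 0 * y 0 + y 1 * y 1) = ss := by
    funext y
    simp only [ss]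
    ring
  refine (h.congr_fderiv ?_).congr_of_eventuallyEq (Eventually.of_forall fun y => ?_)
  · ext v
    simp only [Dss, add_apply, smul_apply, smul_eq_mul]
    ring
  · simp only [ss, Pi.add_apply, Pi.mul_apply]
    ring

theorem hasFDerivAt_ssr {x : RE 2} (hx : x ≠ 0) (a : ℝ) :
    HasFDerivAt (fun y => ss y ^ a) ((a * ss x ^ (a - 1)) • Dss x) x :=
  (hasFDerivAt_ss x).rpow_const (Or.inl (ss_pos hx).ne')

theorem continuous_ss : Continuous ss := by
  unfold ss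
  fun_prop

section
variable {n : ℕ} (e0 e1 : RE n)

/-- the quadratic map -/
noncomputable def PP (x : RE 2) : RE n := (x 0 ^ 2 - x 1 ^ 2) • e0 + (2 * x 0 * x 1) • e1

/-- its derivative -/
noncomputable def DP (x : RE 2) : RE 2 →L[ℝ] RE n :=
  ((2 * x 0) • p0 - (2 * x 1) • p1).smulRight e0 + ((2 * x 1) • p0 + (2 * x 0) • p1).smulRight e1

theorem hasFDerivAt_PP (x : RE 2) : HasFDerivAt (PP e0 e1) (DP e0 e1 x) x := by
  have h := ((((hasFDerivAt_0 x).mul (hasFDerivAt_0 x)).sub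
    ((hasFDerivAt_1 x).mul (hasFDerivAt_1 x))).smul_const e0).add
    (((((hasFDerivAt_0 x).mul (hasFDerivAt_1 x)).const_mul 2).smul_const e1))
  refine (h.congr_fderiv ?_).congr_of_eventuallyEq (Eventually.of_forall fun y => ?_)
  · refine ContinuousLinearMap.ext fun v => ?_
    simp only [DP, add_apply, sub_apply,
      ContinuousLinearMap.smulRight_apply, smul_apply, smul_eq_mul]
    rw [show x 0 * p0 v + x 0 * p0 v - (x 1 * p1 v + x 1 * p1 v) =
      2 * x 0 * p0 v - 2 * x 1 * p1 v by ring,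
      show 2 * (x 0 * p1 v + x 1 * p0 v) = 2 * x 1 * p0 v + 2 * x 0 * p1 v by ring]
  · show (y 0 ^ 2 - y 1 ^ 2) • e0 + (2 * y 0 * y 1) • e1 =
      (y 0 * y 0 - y 1 * y 1) • e0 + (2 * (y 0 * y 1)) • e1
    rw [show y 0 * y 0 - y 1 * y 1 = y 0 ^ 2 - y 1 ^ 2 by ring,
      show 2 * (y 0 * y 1) = 2 * y 0 * y 1 by ring]

/-- the example -/
noncomputable def hh (b : ℝ) (x : RE 2) : RE n := ss x ^ b • PP e0 e1 x

/-- its derivative -/
noncomputable def Dh (b : ℝ) (x : RE 2) : RE 2 →L[ℝ] RE n :=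
  ss x ^ b • DP e0 e1 x + ((b * ss x ^ (b - 1)) • Dss x).smulRight (PP e0 e1 x)

theorem hasFDerivAt_hh (b : ℝ) {x : RE 2} (hx : x ≠ 0) :
    HasFDerivAt (hh e0 e1 b) (Dh e0 e1 b x) x :=
  (hasFDerivAt_ssr hx b).smul (hasFDerivAt_PP e0 e1 x)

theorem abs_le (x : RE 2) (i : Fin 2) : |x i| ≤ ‖x‖ := by
  have := PiLp.norm_apply_le x i
  rwa [Real.norm_eq_abs] at this

theorem norm_PP_le (x : RE 2) (h0 : ‖e0‖ = 1) (h1 : ‖e1‖ = 1) : ‖PP e0 e1 x‖ ≤ 2 * ‖x‖ ^ 2 := by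
  unfold PP
  refine (norm_add_le _ _).trans ?_
  rw [norm_smul, norm_smul, h0, h1, mul_one, mul_one, Real.norm_eq_abs, Real.norm_eq_abs,
    ← ss_eq]
  have e1 : |x 0 ^ 2 - x 1 ^ 2| ≤ ss x := by
    rw [abs_le']
    unfold ss
    constructor <;> nlinarith [sq_nonneg (x 0), sq_nonneg (x 1)]
  have e2 : |2 * x 0 * x 1| ≤ ss x := by
    rw [abs_le']
    unfold ss
    constructor <;> nlinarith [sq_nonneg (x 0 - x 1), sq_nonneg (x 0 + x 1)]
  linarith

theorem norm_DP_le (x : RE 2) (h0 : ‖e0‖ = 1) (h1 : ‖e1‖ = 1) : ‖DP e0 e1 x‖ ≤ 8 * ‖x‖ := by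
  refine ContinuousLinearMap.opNorm_le_bound _ (by positivity) fun v => ?_
  simp only [DP, add_apply, sub_apply,
      ContinuousLinearMap.smulRight_apply, smul_apply, smul_eq_mul, p0_apply,
      p1_apply]
  refine (norm_add_le _ _).trans ?_
  rw [norm_smul, norm_smul, h0, h1, mul_one, mul_one, Real.norm_eq_abs, Real.norm_eq_abs]
  have a := abs_le x 0
  have b := abs_le x 1
  have c := abs_le v 0
  have d := abs_le v 1
  have m : ∀ i j : Fin 2, |x i * v j| ≤ ‖x‖ * ‖v‖ := fun i j => by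
    rw [abs_mul]
    exact mul_le_mul (abs_le x i) (abs_le v j) (abs_nonneg _) (norm_nonneg _)
  have m00 := m 0 0
  have m01 := m 0 1
  have m10 := m 1 0
  have m11 := m 1 1
  rw [_root_.abs_le] at m00 m01 m10 m11
  have e1 : |2 * x 0 * v 0 - 2 * x 1 * v 1| ≤ 4 * (‖x‖ * ‖v‖) := by
    rw [_root_.abs_le]
    constructor <;> linarith
  have e2 : |2 * x 1 * v 0 + 2 * x 0 * v 1| ≤ 4 * (‖x‖ * ‖v‖) := by
    rw [_root_.abs_le]
    constructor <;> linarith
  linarith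

theorem norm_Dss_le (x : RE 2) : ‖Dss x‖ ≤ 4 * ‖x‖ := by
  refine ContinuousLinearMap.opNorm_le_bound _ (by positivity) fun v => ?_
  simp only [Dss, add_apply, smul_apply, smul_eq_mul,
    p0_apply, p1_apply]
  rw [Real.norm_eq_abs]
  have m : ∀ i j : Fin 2, |x i * v j| ≤ ‖x‖ * ‖v‖ := fun i j => by
    rw [abs_mul]
    exact mul_le_mul (abs_le x i) (abs_le v j) (abs_nonneg _) (norm_nonneg _)
  have m00 := m 0 0
  have m11 := m 1 1
  rw [_root_.abs_le] at m00 m11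
  rw [_root_.abs_le]
  constructor <;> linarith

theorem ss_rpow {x : RE 2} (b : ℝ) : ss x ^ b = ‖x‖ ^ (2 * b) := by
  rw [ss_eq, ← Real.rpow_natCast, ← Real.rpow_mul (norm_nonneg _)]
  norm_num

theorem norm_Dh_le (b : ℝ) (x : RE 2) (h0 : ‖e0‖ = 1) (h1 : ‖e1‖ = 1) (hx : x ≠ 0) :
    ‖Dh e0 e1 b x‖ ≤ (8 + 8 * |b|) * ‖x‖ ^ (2 * b + 1) := by
  have hr : 0 < ‖x‖ := norm_pos_iff.mpr hx
  unfold Dh
  refine (norm_add_le _ _).trans ?_
  rw [norm_smul, ContinuousLinearMap.norm_smulRight_apply, norm_smul, Real.norm_eq_abs,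
    Real.norm_eq_abs, abs_mul, ss_rpow, ss_rpow, abs_of_pos (Real.rpow_pos_of_pos hr _),
    abs_of_pos (Real.rpow_pos_of_pos hr _)]
  have q1 := norm_DP_le e0 e1 x h0 h1
  have q2 := norm_Dss_le x
  have q3 := norm_PP_le e0 e1 x h0 h1
  have f1 : ‖x‖ ^ (2 * b) * ‖DP e0 e1 x‖ ≤ ‖x‖ ^ (2 * b) * (8 * ‖x‖) :=
    mul_le_mul_of_nonneg_left q1 (Real.rpow_pos_of_pos hr _).le
  have f2 : |b| * ‖x‖ ^ (2 * (b - 1)) * ‖Dss x‖ * ‖PP e0 e1 x‖ ≤
      |b| * ‖x‖ ^ (2 * (b - 1)) * (4 * ‖x‖) * (2 * ‖x‖ ^ 2) := by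
    have := (Real.rpow_pos_of_pos hr (2 * (b - 1))).le
    have := abs_nonneg b
    gcongr
  have g1 : ‖x‖ ^ (2 * b) * ‖x‖ = ‖x‖ ^ (2 * b + 1) := by
    rw [Real.rpow_add_one hr.ne']
  have g2 : ‖x‖ ^ (2 * (b - 1)) * ‖x‖ ^ 2 = ‖x‖ ^ (2 * b) := by
    rw [← Real.rpow_natCast ‖x‖ 2, ← Real.rpow_add hr]
    congr 1
    push_cast
    ring
  calc _ ≤ ‖x‖ ^ (2 * b) * (8 * ‖x‖) + |b| * ‖x‖ ^ (2 * (b - 1)) * (4 * ‖x‖) * (2 * ‖x‖ ^ 2) :=
        add_le_add f1 f2
    _ = 8 * (‖x‖ ^ (2 * b) * ‖x‖) + 8 * |b| * ((‖x‖ ^ (2 * (b - 1)) * ‖x‖ ^ 2) * ‖x‖) := by ring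
    _ = (8 + 8 * |b|) * ‖x‖ ^ (2 * b + 1) := by rw [g2, g1]; ring

theorem DP_zero : DP e0 e1 0 = 0 := by
  refine ContinuousLinearMap.ext fun v => ?_
  simp [DP]

theorem Dss_zero : Dss 0 = 0 := by
  refine ContinuousLinearMap.ext fun v => ?_
  simp [Dss]

theorem PP_zero : PP e0 e1 0 = 0 := by
  simp [PP]

theorem Dh_zero (b : ℝ) : Dh e0 e1 b 0 = 0 := by
  refine ContinuousLinearMap.ext fun v => ?_
  simp [Dh, DP_zero, Dss_zero]

theorem hh_zero (b : ℝ) : hh e0 e1 b 0 = 0 := by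
  simp [hh, PP_zero]

theorem tendsto_rpow_zero {a : ℝ} (ha : 0 < a) :
    Tendsto (fun x : RE 2 => ‖x‖ ^ a) (𝓝 0) (𝓝 0) := by
  have h1 : Tendsto (fun x : RE 2 => ‖x‖) (𝓝 0) (𝓝 0) := by
    have := (continuous_norm (E := RE 2)).tendsto 0
    rwa [norm_zero] at this
  have h2 := h1.rpow_const (p := a) (Or.inr ha.le)
  rwa [Real.zero_rpow ha.ne'] at h2

theorem norm_hh_le (b : ℝ) (x : RE 2) (h0 : ‖e0‖ = 1) (h1 : ‖e1‖ = 1) (hx : x ≠ 0) :
    ‖hh e0 e1 b x‖ ≤ 2 * ‖x‖ ^ (2 * b + 1) * ‖x‖ := by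
  have hr : 0 < ‖x‖ := norm_pos_iff.mpr hx
  unfold hh
  rw [norm_smul, Real.norm_eq_abs, ss_rpow, abs_of_pos (Real.rpow_pos_of_pos hr _)]
  have q3 := norm_PP_le e0 e1 x h0 h1
  calc _ ≤ ‖x‖ ^ (2 * b) * (2 * ‖x‖ ^ 2) :=
        mul_le_mul_of_nonneg_left q3 (Real.rpow_pos_of_pos hr _).le
    _ = _ := by rw [Real.rpow_add_one hr.ne']; ring

theorem hasFDerivAt_hh_zero {b : ℝ} (hb : 0 < 2 * b + 1) (h0 : ‖e0‖ = 1) (h1 : ‖e1‖ = 1) :
    HasFDerivAt (hh e0 e1 b) (Dh e0 e1 b 0) 0 := by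
  rw [Dh_zero, hasFDerivAt_iff_isLittleO_nhds_zero, Asymptotics.isLittleO_iff]
  intro c hc
  have h2 : Tendsto (fun x : RE 2 => 2 * ‖x‖ ^ (2 * b + 1)) (𝓝 0) (𝓝 0) := by
    have := (tendsto_rpow_zero hb).const_mul 2
    rwa [mul_zero] at this
  filter_upwards [h2.eventually_lt_const hc] with x hx
  rw [zero_add, hh_zero, sub_zero, zero_apply, sub_zero]
  by_cases h : x = 0
  · rw [h, hh_zero, norm_zero, norm_zero, mul_zero]
  · refine (norm_hh_le e0 e1 b x h0 h1 h).trans ?_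
    exact mul_le_mul_of_nonneg_right hx.le (norm_nonneg _)

theorem hasFDerivAt_hh' {b : ℝ} (hb : 0 < 2 * b + 1) (h0 : ‖e0‖ = 1) (h1 : ‖e1‖ = 1) (x : RE 2) :
    HasFDerivAt (hh e0 e1 b) (Dh e0 e1 b x) x := by
  by_cases h : x = 0
  · rw [h]
    exact hasFDerivAt_hh_zero e0 e1 hb h0 h1
  · exact hasFDerivAt_hh e0 e1 b h

theorem continuous_Dss : Continuous Dss := by
  unfold Dss
  fun_prop

theorem continuous_DP : Continuous (DP e0 e1) := by
  have h0 : Continuous fun x : RE 2 => x 0 := p0.continuous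
  have h1 : Continuous fun x : RE 2 => x 1 := p1.continuous
  have e : DP e0 e1 = fun x : RE 2 => (2 * x 0) • (p0.smulRight e0) - (2 * x 1) • (p1.smulRight e0)
      + ((2 * x 1) • (p0.smulRight e1) + (2 * x 0) • (p1.smulRight e1)) := by
    funext x
    refine ContinuousLinearMap.ext fun v => ?_
    simp only [DP, add_apply, sub_apply, ContinuousLinearMap.smulRight_apply, smul_apply,
      smul_eq_mul, sub_smul, add_smul, mul_smul]
  rw [e]
  fun_prop

theorem continuous_PP : Continuous (PP e0 e1) := by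
  unfold PP
  fun_prop

theorem continuous_Dh {b : ℝ} (hb : 0 < 2 * b + 1) (h0 : ‖e0‖ = 1) (h1 : ‖e1‖ = 1) :
    Continuous (Dh e0 e1 b) := by
  rw [continuous_iff_continuousAt]
  intro x
  by_cases h : x = 0
  · rw [h, ContinuousAt, Dh_zero]
    have h2 : Tendsto (fun x : RE 2 => (8 + 8 * |b|) * ‖x‖ ^ (2 * b + 1)) (𝓝 0) (𝓝 0) := by
      have := (tendsto_rpow_zero hb).const_mul (8 + 8 * |b|)
      rwa [mul_zero] at this
    refine squeeze_zero_norm (fun y => ?_) h2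
    by_cases hy : y = 0
    · rw [hy, Dh_zero, norm_zero]
      positivity
    · exact norm_Dh_le e0 e1 b y h0 h1 hy
  · have hs := (ss_pos h).ne'
    have c1 : ∀ a : ℝ, ContinuousAt (fun y => ss y ^ a) x := fun a =>
      (continuous_ss.continuousAt).rpow_const (Or.inl hs)
    have c2 : ContinuousAt (fun y => (b * ss y ^ (b - 1)) • Dss y) x :=
      ((c1 (b - 1)).const_mul b).smul continuous_Dss.continuousAt
    have c3 : ContinuousAt (fun y => ((b * ss y ^ (b - 1)) • Dss y).smulRight (PP e0 e1 y)) x := by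
      have := (continuous_PP e0 e1).continuousAt (x := x)
      exact (ContinuousLinearMap.smulRightL ℝ (RE 2) (RE n)).continuous₂.continuousAt.comp₂ c2 this
    exact ((c1 b).smul (continuous_DP e0 e1).continuousAt).add c3

theorem contDiff_hh {b : ℝ} (hb : 0 < 2 * b + 1) (h0 : ‖e0‖ = 1) (h1 : ‖e1‖ = 1) :
    ContDiff ℝ 1 (hh e0 e1 b) := by
  rw [contDiff_one_iff_fderiv]
  refine ⟨fun x => (hasFDerivAt_hh' e0 e1 hb h0 h1 x).differentiableAt, ?_⟩
  have : fderiv ℝ (hh e0 e1 b) = Dh e0 e1 b := by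
    funext x
    exact (hasFDerivAt_hh' e0 e1 hb h0 h1 x).fderiv
  rw [this]
  exact continuous_Dh e0 e1 hb h0 h1

theorem hom_hh (b : ℝ) : Hom (2 * b + 2) (hh e0 e1 b) := by
  intro t x ht
  have e1' : ss (t • x) = t ^ 2 * ss x := by
    simp only [ss, PiLp.smul_apply, smul_eq_mul]
    ring
  have e2 : PP e0 e1 (t • x) = t ^ 2 • PP e0 e1 x := by
    simp only [PP, PiLp.smul_apply, smul_eq_mul, smul_add, smul_smul]
    congr 2 <;> ring
  have hs : 0 ≤ ss x := by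
    unfold ss
    positivity
  unfold hh
  rw [e1', e2, Real.mul_rpow (by positivity) hs, smul_smul, smul_smul]
  congr 1
  have : t ^ (2 * b + 2) = (t ^ 2) ^ b * t ^ 2 := by
    rw [← Real.rpow_natCast t 2, ← Real.rpow_mul ht.le, ← Real.rpow_add ht]
    norm_num
  rw [this]
  ring

/-- the values of the derivative on the standard basis -/
theorem Dh_single (b : ℝ) (x : RE 2) (i : Fin 2) :
    Dh e0 e1 b x (EuclideanSpace.single i 1) =
      (ss x ^ b * (![2 * x 0, -(2 * x 1)] i) + 2 * b * ss x ^ (b - 1) * x i *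
        (x 0 ^ 2 - x 1 ^ 2)) • e0 +
      (ss x ^ b * (![2 * x 1, 2 * x 0] i) + 2 * b * ss x ^ (b - 1) * x i *
        (2 * x 0 * x 1)) • e1 := by
  fin_cases i
  · simp only [Dh, DP, Dss, PP, add_apply, sub_apply, ContinuousLinearMap.smulRight_apply,
      smul_apply, smul_eq_mul, p0_apply, p1_apply]
    simp only [Fin.zero_eta, Fin.isValue, PiLp.single_apply, if_true, one_ne_zero,
      if_false, Matrix.cons_val_zero, smul_add, smul_smul, add_smul]
    simp only [mul_one, mul_zero, sub_zero, add_zero, zero_smul]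
    module
  · simp only [Dh, DP, Dss, PP, add_apply, sub_apply, ContinuousLinearMap.smulRight_apply,
      smul_apply, smul_eq_mul, p0_apply, p1_apply]
    simp only [Fin.mk_one, Fin.isValue, PiLp.single_apply, if_true, zero_ne_one,
      if_false, Matrix.cons_val_one, Matrix.cons_val_fin_one, smul_add, smul_smul, add_smul]
    simp only [mul_one, mul_zero, zero_add, zero_sub, zero_smul]
    module

theorem norm_comb (h0 : ‖e0‖ = 1) (h1 : ‖e1‖ = 1) (h01 : ⟪e0, e1⟫ = 0) (a b : ℝ) :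
    ‖a • e0 + b • e1‖ ^ 2 = a ^ 2 + b ^ 2 := by
  rw [norm_add_sq_real, norm_smul, norm_smul, h0, h1, real_inner_smul_left,
    real_inner_smul_right, h01, Real.norm_eq_abs, Real.norm_eq_abs]
  simp only [mul_one, mul_zero, add_zero, sq_abs]

theorem ssb {x : RE 2} (hx : x ≠ 0) (a : ℝ) : ss x ^ a = ss x ^ (a - 1) * ss x := by
  rw [← Real.rpow_add_one (ss_pos hx).ne']
  congr 1
  ring

theorem norm_grad_sq {b : ℝ} (hb : 0 < 2 * b + 1) (h0 : ‖e0‖ = 1) (h1 : ‖e1‖ = 1)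
    (h01 : ⟪e0, e1⟫ = 0) {x : RE 2} (hx : x ≠ 0) :
    ‖grad (hh e0 e1 b) x‖ ^ 2 = ((2 * b + 2) ^ 2 + 4) * ss x ^ (2 * b + 1) := by
  have e : ‖grad (hh e0 e1 b) x‖ ^ 2 =
      ∑ i : Fin 2, ‖Dh e0 e1 b x (EuclideanSpace.single i 1)‖ ^ 2 := by
    rw [EuclideanSpace.norm_sq_eq, Fintype.sum_prod_type, Finset.sum_comm]
    refine Finset.sum_congr rfl fun i _ => ?_
    rw [EuclideanSpace.norm_sq_eq]
    refine Finset.sum_congr rfl fun α _ => ?_
    simp only [grad, (hasFDerivAt_hh' e0 e1 hb h0 h1 x).fderiv]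
  rw [e, Fin.sum_univ_two, Dh_single, Dh_single, norm_comb e0 e1 h0 h1 h01,
    norm_comb e0 e1 h0 h1 h01, ssb hx b]
  have f : ss x ^ (2 * b + 1) = (ss x ^ (b - 1)) ^ 2 * ss x ^ 3 := by
    rw [← Real.rpow_natCast (ss x ^ (b - 1)) 2, ← Real.rpow_mul (ss_pos hx).le,
      ← Real.rpow_natCast (ss x) 3, ← Real.rpow_add (ss_pos hx)]
    congr 1
    push_cast
    ring
  rw [f]
  simp only [Fin.isValue, Matrix.cons_val_zero, Matrix.cons_val_one, Matrix.cons_val_fin_one]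
  generalize ss x ^ (b - 1) = T
  simp only [ss]
  ring

theorem grad_apply {b : ℝ} (hb : 0 < 2 * b + 1) (h0 : ‖e0‖ = 1) (h1 : ‖e1‖ = 1) (x : RE 2)
    (α : Fin n) (i : Fin 2) : grad (hh e0 e1 b) x (α, i) =
      (ss x ^ b * (![2 * x 0, -(2 * x 1)] i) + 2 * b * ss x ^ (b - 1) * x i *
        (x 0 ^ 2 - x 1 ^ 2)) * e0 α +
      (ss x ^ b * (![2 * x 1, 2 * x 0] i) + 2 * b * ss x ^ (b - 1) * x i *
        (2 * x 0 * x 1)) * e1 α := by
  have e : grad (hh e0 e1 b) x (α, i) = (Dh e0 e1 b x (EuclideanSpace.single i 1)) α := by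
    simp only [grad, (hasFDerivAt_hh' e0 e1 hb h0 h1 x).fderiv]
  rw [e, Dh_single]
  simp only [PiLp.add_apply, PiLp.smul_apply, smul_eq_mul]

end

/-- the components of the field -/
noncomputable def gg (A B b a c : ℝ) (i : Fin 2) (y : RE 2) : ℝ :=
  c * (ss y ^ a * (![2 * A * y 0 + 2 * B * y 1, -(2 * A * y 1) + 2 * B * y 0] i) +
    2 * b * ss y ^ (a - 1) * y i * (A * (y 0 ^ 2 - y 1 ^ 2) + B * (2 * y 0 * y 1)))

theorem hasFDerivAt_q (A B : ℝ) (x : RE 2) :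
    HasFDerivAt (fun y : RE 2 => A * (y 0 ^ 2 - y 1 ^ 2) + B * (2 * y 0 * y 1))
      ((2 * A * x 0 + 2 * B * x 1) • p0 + (-(2 * A * x 1) + 2 * B * x 0) • p1) x := by
  have h := ((((hasFDerivAt_0 x).mul (hasFDerivAt_0 x)).sub
    ((hasFDerivAt_1 x).mul (hasFDerivAt_1 x))).const_mul A).add
    (((((hasFDerivAt_0 x).mul (hasFDerivAt_1 x)).const_mul 2).const_mul B))
  refine (h.congr_fderiv ?_).congr_of_eventuallyEq (Eventually.of_forall fun y => ?_)
  · refine ContinuousLinearMap.ext fun v => ?_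
    simp only [add_apply, sub_apply, smul_apply, smul_eq_mul]
    ring
  · show A * (y 0 ^ 2 - y 1 ^ 2) + B * (2 * y 0 * y 1) =
      A * (y 0 * y 0 - y 1 * y 1) + B * (2 * (y 0 * y 1))
    ring

theorem hasFDerivAt_lin (A B : ℝ) (x : RE 2) :
    HasFDerivAt (fun y : RE 2 => A * y 0 + B * y 1) (A • p0 + B • p1) x :=
  ((hasFDerivAt_0 x).const_mul A).add ((hasFDerivAt_1 x).const_mul B)

theorem gg_deriv (A B b a c : ℝ) {x : RE 2} (hx : x ≠ 0) :
    (∀ i, DifferentiableAt ℝ (gg A B b a c i) x) ∧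
    (a * (1 + b) + b = 0 →
      fderiv ℝ (gg A B b a c 0) x (EuclideanSpace.single 0 1) +
      fderiv ℝ (gg A B b a c 1) x (EuclideanSpace.single 1 1) = 0) := by
  have k1 := hasFDerivAt_ssr hx a
  have k2 := hasFDerivAt_ssr hx (a - 1)
  have kq := hasFDerivAt_q A B x
  have g0 := ((k1.mul (hasFDerivAt_lin (2 * A) (2 * B) x)).add
      (((k2.const_mul (2 * b)).mul (hasFDerivAt_0 x)).mul kq)).const_mul c
  have g1 := ((k1.mul (hasFDerivAt_lin (2 * B) (-(2 * A)) x)).add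
      (((k2.const_mul (2 * b)).mul (hasFDerivAt_1 x)).mul kq)).const_mul c
  have f0 := g0.congr_of_eventuallyEq (f₁ := gg A B b a c 0) (Eventually.of_forall fun y => by
    show c * (ss y ^ a * (2 * A * y 0 + 2 * B * y 1) +
      2 * b * ss y ^ (a - 1) * y 0 * (A * (y 0 ^ 2 - y 1 ^ 2) + B * (2 * y 0 * y 1))) =
      c * (ss y ^ a * (2 * A * y 0 + 2 * B * y 1) +
      2 * b * ss y ^ (a - 1) * y 0 * (A * (y 0 ^ 2 - y 1 ^ 2) + B * (2 * y 0 * y 1)))
    rfl)
  have f1 := g1.congr_of_eventuallyEq (f₁ := gg A B b a c 1) (Eventually.of_forall fun y => by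
    show c * (ss y ^ a * (-(2 * A * y 1) + 2 * B * y 0) +
      2 * b * ss y ^ (a - 1) * y 1 * (A * (y 0 ^ 2 - y 1 ^ 2) + B * (2 * y 0 * y 1))) =
      c * (ss y ^ a * (2 * B * y 0 + -(2 * A) * y 1) +
      2 * b * ss y ^ (a - 1) * y 1 * (A * (y 0 ^ 2 - y 1 ^ 2) + B * (2 * y 0 * y 1)))
    ring)
  refine ⟨fun i => ?_, fun hab => ?_⟩
  · fin_cases i
    · exact f0.differentiableAt
    · exact f1.differentiableAt
  · rw [f0.fderiv, f1.fderiv]
    simp only [add_apply, smul_apply, smul_eq_mul, p0_apply, p1_apply, Dss,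
      PiLp.single_apply, if_true, one_ne_zero, zero_ne_one, if_false, Pi.mul_apply]
    have e1 : ss x ^ a = ss x ^ (a - 1 - 1) * ss x ^ 2 := by
      rw [ssb hx a, ssb hx (a - 1)]
      ring
    rw [e1, ssb hx (a - 1)]
    generalize ss x ^ (a - 1 - 1) = T
    simp only [ss]
    linear_combination (4 * c * T * (x 0 ^ 2 + x 1 ^ 2) *
      (A * (x 0 ^ 2 - x 1 ^ 2) + B * (2 * x 0 * x 1))) * hab

/-- existence of the exponent -/
theorem exists_beta (p : ℝ) (hp : 1 < p) : ∃ β : ℝ, 1 < β ∧ CC p β = 4 := by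
  have h0 : 0 < p - 1 := by linarith
  have h3 : 0 < 3 / (p - 1) := div_pos three_pos h0
  have hle : (1 : ℝ) ≤ 1 + 3 / (p - 1) := by linarith
  have hc : ContinuousOn (CC p) (Icc 1 (1 + 3 / (p - 1))) := by
    unfold CC
    fun_prop
  have h1 : CC p 1 ≤ 4 := by
    unfold CC
    linarith
  have h2 : 4 ≤ CC p (1 + 3 / (p - 1)) := by
    unfold CC
    have e : (p - 1) * (1 + 3 / (p - 1)) + 2 - p = 4 := by
      field_simp
      ring
    rw [e]
    linarith
  obtain ⟨β, hβ, h⟩ := intermediate_value_Icc hle hc ⟨h1, h2⟩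
  refine ⟨β, lt_of_le_of_ne hβ.1 ?_, h⟩
  intro e
  rw [← e] at h
  unfold CC at h
  linarith

theorem continuous_Aop {p : ℝ} (hp : 1 < p) {n d : ℕ} :
    Continuous (Aop p : Mat n d → Mat n d) := by
  rw [continuous_iff_continuousAt]
  intro ξ
  by_cases h : ξ = 0
  · have e : Aop p (0 : Mat n d) = 0 := by simp [Aop]
    rw [h, ContinuousAt, e]
    have h1 : Tendsto (fun ξ : Mat n d => ‖ξ‖ ^ (p - 1)) (𝓝 0) (𝓝 0) := by
      have h2 : Tendsto (fun ξ : Mat n d => ‖ξ‖) (𝓝 0) (𝓝 0) := by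
        have := (continuous_norm (E := Mat n d)).tendsto 0
        rwa [norm_zero] at this
      have h3 := h2.rpow_const (p := p - 1) (Or.inr (by linarith))
      rwa [Real.zero_rpow (by linarith)] at h3
    refine squeeze_zero_norm (fun y => ?_) h1
    by_cases hy : y = 0
    · rw [hy, e, norm_zero]
      positivity
    · have hr : 0 < ‖y‖ := norm_pos_iff.mpr hy
      unfold Aop
      rw [norm_smul, Real.norm_eq_abs, abs_of_pos (Real.rpow_pos_of_pos hr _),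
        ← Real.rpow_add_one hr.ne']
      refine le_of_eq ?_
      congr 1
      ring
  · exact ((continuous_norm.continuousAt).rpow_const (Or.inl (norm_ne_zero_iff.mpr h))).smul
      continuousAt_id

theorem continuous_grad {n d : ℕ} {h : RE d → RE n} (hh : ContDiff ℝ 1 h) :
    Continuous (grad h) := by
  unfold grad
  refine (PiLp.continuous_toLp 2 _).comp (continuous_pi fun β => ?_)
  have h1 := (hh.continuous_fderiv one_ne_zero).clm_apply
    (continuous_const (y := (EuclideanSpace.single β.2 (1 : ℝ) : RE d)))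
  exact (EuclideanSpace.proj β.1 : RE n →L[ℝ] ℝ).continuous.comp h1

section
variable {n : ℕ} (e0 e1 : RE n)

/-- the field of the row `α` -/
noncomputable def FF (p b : ℝ) (α : Fin n) (x : RE 2) : RE 2 :=
  WithLp.toLp 2 fun i => Aop p (grad (hh e0 e1 b) x) (α, i)

theorem continuous_FF {p b : ℝ} (hp : 1 < p) (hb : 0 < 2 * b + 1) (h0 : ‖e0‖ = 1)
    (h1 : ‖e1‖ = 1) (α : Fin n) : Continuous (FF e0 e1 p b α) := by
  refine (PiLp.continuous_toLp 2 _).comp (continuous_pi fun i => ?_)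
  exact (EuclideanSpace.proj (α, i) : Mat n 2 →L[ℝ] ℝ).continuous.comp
    ((continuous_Aop hp).comp (continuous_grad (contDiff_hh e0 e1 hb h0 h1)))

theorem FF_eq {p b : ℝ} (hb : 0 < 2 * b + 1) (h0 : ‖e0‖ = 1) (h1 : ‖e1‖ = 1)
    (h01 : ⟪e0, e1⟫ = 0) (α : Fin n) {x : RE 2} (hx : x ≠ 0) (i : Fin 2) :
    FF e0 e1 p b α x i = gg (e0 α) (e1 α) b ((2 * b + 1) * ((p - 2) / 2) + b)
      (((2 * b + 2) ^ 2 + 4) ^ ((p - 2) / 2)) i x := by
  have hs := ss_pos hx
  have e : ‖grad (hh e0 e1 b) x‖ ^ (p - 2) =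
      ((2 * b + 2) ^ 2 + 4) ^ ((p - 2) / 2) * ss x ^ ((2 * b + 1) * ((p - 2) / 2)) := by
    have e1 : ‖grad (hh e0 e1 b) x‖ ^ (p - 2) =
        (‖grad (hh e0 e1 b) x‖ ^ 2) ^ ((p - 2) / 2) := by
      rw [← Real.rpow_natCast (‖grad (hh e0 e1 b) x‖) 2, ← Real.rpow_mul (norm_nonneg _)]
      congr 1
      push_cast
      ring
    rw [e1, norm_grad_sq e0 _ hb h0 h1 h01 hx, Real.mul_rpow (by positivity) (by positivity),
      ← Real.rpow_mul hs.le]
  have e2 : FF e0 e1 p b α x i =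
      ‖grad (hh e0 e1 b) x‖ ^ (p - 2) * grad (hh e0 e1 b) x (α, i) := rfl
  rw [e2, e, grad_apply e0 e1 hb h0 h1]
  unfold gg
  rw [Real.rpow_add hs, show (2 * b + 1) * ((p - 2) / 2) + b - 1 =
    (2 * b + 1) * ((p - 2) / 2) + (b - 1) by ring, Real.rpow_add hs]
  fin_cases i
  · simp only [Fin.zero_eta, Fin.isValue, Matrix.cons_val_zero]
    ring
  · simp only [Fin.mk_one, Fin.isValue, Matrix.cons_val_one, Matrix.cons_val_fin_one]
    ring

theorem FF_deriv {p b : ℝ} (hb : 0 < 2 * b + 1) (h0 : ‖e0‖ = 1) (h1 : ‖e1‖ = 1)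
    (h01 : ⟪e0, e1⟫ = 0) (hC : CC p (2 * b + 2) = 4) (α : Fin n) {x : RE 2} (hx : x ≠ 0) :
    DifferentiableAt ℝ (FF e0 e1 p b α) x ∧
    ∑ i : Fin 2, (fderiv ℝ (FF e0 e1 p b α) x (EuclideanSpace.single i 1)) i = 0 := by
  obtain ⟨d1, d2⟩ := gg_deriv (e0 α) (e1 α) b ((2 * b + 1) * ((p - 2) / 2) + b)
      (((2 * b + 2) ^ 2 + 4) ^ ((p - 2) / 2)) hx
  have hev : ∀ i, (fun y => FF e0 e1 p b α y i) =ᶠ[𝓝 x] gg (e0 α) (e1 α) b
      ((2 * b + 1) * ((p - 2) / 2) + b) (((2 * b + 2) ^ 2 + 4) ^ ((p - 2) / 2)) i := by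
    intro i
    filter_upwards [isOpen_ne.mem_nhds hx] with y hy
    exact FF_eq e0 e1 hb h0 h1 h01 α hy i
  have hd : DifferentiableAt ℝ (FF e0 e1 p b α) x := by
    rw [differentiableAt_euclidean]
    intro i
    exact (d1 i).congr_of_eventuallyEq (hev i)
  refine ⟨hd, ?_⟩
  have hi : ∀ i (v : RE 2), (fderiv ℝ (FF e0 e1 p b α) x v) i =
      fderiv ℝ (gg (e0 α) (e1 α) b ((2 * b + 1) * ((p - 2) / 2) + b)
      (((2 * b + 2) ^ 2 + 4) ^ ((p - 2) / 2)) i) x v := by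
    intro i v
    rw [← (hev i).fderiv_eq]
    have := ((EuclideanSpace.proj i : RE 2 →L[ℝ] ℝ).hasFDerivAt.comp x hd.hasFDerivAt).fderiv
    have e : fderiv ℝ (fun y => FF e0 e1 p b α y i) x =
      (EuclideanSpace.proj i : RE 2 →L[ℝ] ℝ).comp (fderiv ℝ (FF e0 e1 p b α) x) := this
    rw [e]
    rfl
  rw [Fin.sum_univ_two, hi, hi]
  refine d2 ?_
  unfold CC at hC
  linear_combination (1 / 4 : ℝ) * hC

end

/-- Task O2. -/
theorem t_O2 (hO1 : S_O1) : S_O2 := by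
  intro n p hp hn
  obtain ⟨β, hβ, hC⟩ := exists_beta p hp
  obtain ⟨b, rfl⟩ : ∃ b : ℝ, β = 2 * b + 2 := ⟨(β - 2) / 2, by ring⟩
  have hb : 0 < 2 * b + 1 := by linarith
  set a0 : Fin n := ⟨0, by omega⟩ with ha0
  set a1 : Fin n := ⟨1, by omega⟩ with ha1
  have hne : a0 ≠ a1 := by
    intro h
    have := congrArg Fin.val h
    simp [ha0, ha1] at this
  set e0 : RE n := EuclideanSpace.single a0 1 with he0
  set e1 : RE n := EuclideanSpace.single a1 1 with he1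
  have h0 : ‖e0‖ = 1 := by simp [he0]
  have h1 : ‖e1‖ = 1 := by simp [he1]
  have h01 : ⟪e0, e1⟫ = 0 := by
    rw [he0, EuclideanSpace.inner_single_left, he1]
    simp [hne]
  refine ⟨2 * b + 2, hh e0 e1 b, hβ, hC, ⟨contDiff_hh e0 e1 hb h0 h1, ?_⟩, hom_hh e0 e1 b, ?_⟩
  · intro φ hφ hc
    have key : ∀ α : Fin n, Integrable (fun x => ∑ i : Fin 2,
        Aop p (grad (hh e0 e1 b) x) (α, i) * (fderiv ℝ φ x (EuclideanSpace.single i 1)) α) ∧
        ∫ x, ∑ i : Fin 2,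
        Aop p (grad (hh e0 e1 b) x) (α, i) * (fderiv ℝ φ x (EuclideanSpace.single i 1)) α = 0 := by
      intro α
      set η : RE 2 → ℝ := fun x => φ x α with hη
      have c1 : ContDiff ℝ ∞ η := (EuclideanSpace.proj α : RE n →L[ℝ] ℝ).contDiff.comp hφ
      have c2 : HasCompactSupport η :=
        hc.comp_left (g := fun v : RE n => v α) rfl
      have hd : ∀ x (v : RE 2), (fderiv ℝ φ x v) α = fderiv ℝ η x v := by
        intro x v
        have := ((EuclideanSpace.proj α : RE n →L[ℝ] ℝ).hasFDerivAt.comp x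
          ((hφ.differentiable (by simp)) x).hasFDerivAt).fderiv
        have e : fderiv ℝ η x =
          (EuclideanSpace.proj α : RE n →L[ℝ] ℝ).comp (fderiv ℝ φ x) := this
        rw [e]
        rfl
      have hz := hO1 (FF e0 e1 p b α) (continuous_FF e0 e1 hp hb h0 h1 α)
        (fun x hx => (FF_deriv e0 e1 hb h0 h1 h01 hC α hx).1)
        (fun x hx => (FF_deriv e0 e1 hb h0 h1 h01 hC α hx).2) η c1 c2
      have hF : ∀ x (i : Fin 2), Aop p (grad (hh e0 e1 b) x) (α, i) = FF e0 e1 p b α x i :=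
        fun _ _ => rfl
      have cF : Continuous fun x => FF e0 e1 p b α x := continuous_FF e0 e1 hp hb h0 h1 α
      simp only [hF, hd]
      refine ⟨integrable_finsetSum _ fun i _ => ?_, hz⟩
      have k1 : Continuous fun x => fderiv ℝ η x (EuclideanSpace.single i (1 : ℝ)) :=
        (c1.continuous_fderiv (by simp)).clm_apply continuous_const
      have k2 : Continuous fun x => FF e0 e1 p b α x i :=
        (EuclideanSpace.proj i : RE 2 →L[ℝ] ℝ).continuous.comp cF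
      have k3 : HasCompactSupport fun x => fderiv ℝ η x (EuclideanSpace.single i (1 : ℝ)) :=
        (c2.fderiv (𝕜 := ℝ)).comp_left (g := fun L : RE 2 →L[ℝ] ℝ => L (EuclideanSpace.single i 1))
          rfl
      exact (k2.mul k1).integrable_of_hasCompactSupport k3.mul_left
    rw [integral_finsetSum _ fun α _ => (key α).1]
    exact Finset.sum_eq_zero fun α _ => (key α).2
  · intro hg
    have hx : (EuclideanSpace.single 0 1 : RE 2) ≠ 0 := by
      intro h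
      have := congrArg (fun v : RE 2 => v 0) h
      simp at this
    have e := norm_grad_sq e0 e1 hb h0 h1 h01 hx
    have z : grad (hh e0 e1 b) 0 = 0 := by
      ext β
      simp only [grad, (hasFDerivAt_hh' e0 e1 hb h0 h1 0).fderiv, Dh_zero]
      rfl
    rw [hg, z, norm_zero] at e
    have pos : 0 < ((2 * b + 2) ^ 2 + 4) * ss (EuclideanSpace.single 0 1 : RE 2) ^ (2 * b + 1) :=
      mul_pos (by positivity) (Real.rpow_pos_of_pos (ss_pos hx) _)
    rw [← e] at pos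
    norm_num at pos

end Pool.Agent.H947.PH.O2
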